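import Pool.Agent.H56.JWQ.ALL
import Pool.Agent.H52.JWQ.PACK

/-!
# MP_959f6e_co: the cut argument with general parameters
-/

set_option autoImplicit false

open Finset

namespace Pool.Agent.H56.JWL

open Pool.Agent.H56.JW
open Pool.Agent.H44.HC (StarFree KConn Link)
open Pool.Agent.H69.JWQ (nb_two no_tri)

open Classical in
/-- the cut argument with general parameters -/
theorem cut_gen (h1 : T_S1) (h2 : T_S2) (h3 : T_S3) (hI : T_CNI) {V : Type} [Fintype V]
    [DecidableEq V] (G L : SimpleGraph V) (X : Finset V) (lab : V → V) (q s c N : ℕ)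
    (hst : StarFree (s + 1) G) (hk : KConn c G) (hblk : ∀ v ∉ X, Block q G (cls X lab v))
    (hL : LinF G X L) (pi : V → V) (hnp : 2 ≤ np X lab pi) (U : Finset (V ⊕ (V × ℕ)))
    (hbad : (univ.filter fun v => v ∉ X ∧ ¬ FrP X lab q U v).card +
        (univ.filter fun x => x ∈ X ∧ ¬ UsX G L X lab q U x).card ≤ N)
    (hno : ¬ ∃ (κ : Cn V) (τ : V → ℕ), κ.Valid G L X lab ∧ Av L lab q U κ τ ∧
      pi (lab κ.a) ≠ pi (lab κ.b)) :
    ∃ a b, a + b = np X lab pi ∧ b * (q - 7) ≤ U.card ∧ (a ≤ 1 ∨ a * c ≤ s * N) := by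
  classical
  have hp : Pack q (Fintype.card V + 1) G X lab := by
    refine ⟨hblk, fun v _ => ?_, fun v => ?_⟩
    · exact (card_le_univ _).trans (Nat.le_succ _)
    · exact Nat.lt_succ_of_le (card_le_univ _)
  have hno' : ∀ (κ : Cn V) (τ : V → ℕ), κ.Valid G L X lab → Av L lab q U κ τ →
      pi (lab κ.a) = pi (lab κ.b) := by
    intro κ τ hv ha
    by_contra hne
    exact hno ⟨κ, τ, hv, ha, hne⟩
  -- (A)
  have hA : ∀ y y', FrP X lab q U y → FrP X lab q U y' → G.Adj y y' →
      pi (lab y) = pi (lab y') := by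
    intro y y' hy hy' hadj
    by_cases hl : lab y = lab y'
    · rw [hl]
    · obtain ⟨κ, τ, hv, ha, e1, e2⟩ := h1 V G L X lab q U y y' hy hy' hadj hl
      rw [← e1, ← e2]
      exact hno' κ τ hv ha
  -- (B)
  have hB : ∀ x y y', UsX G L X lab q U x → FrP X lab q U y →
      FrP X lab q U y' → G.Adj x y → G.Adj x y' → pi (lab y) = pi (lab y') := by
    intro x y y' hx hy hy' hxy hxy'
    by_cases hl : lab y = lab y'
    · rw [hl]
    · obtain ⟨κ, τ, hv, ha, e1, e2⟩ :=
        h2 V G L X lab q U x y y' hL.deg hL.inX hx hy hy' hxy hxy' hl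
      rw [← e1, ← e2]
      exact hno' κ τ hv ha
  -- (C0)
  have hC0 : ∀ x x' y y', UsX G L X lab q U x → UsX G L X lab q U x' →
      G.Adj x x' → (∀ t, ¬ (L.Adj x t ∧ L.Adj x' t)) → FrP X lab q U y →
      FrP X lab q U y' → G.Adj x y → G.Adj x' y' → pi (lab y) = pi (lab y') := by
    intro x x' y y' hx hx' hxx hcm hy hy' hxy hxy'
    by_cases hl : lab y = lab y'
    · rw [hl]
    · obtain ⟨κ, τ, hv, ha, e1, e2⟩ :=
        h3 V G L X lab q U x x' y y' hL.deg hL.inX hx hx' hxx hcm hy hy' hxy hxy' hl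
      rw [← e1, ← e2]
      exact hno' κ τ hv ha
  have hfree : ∀ x, GdX G X lab q U x → ∃ w, FrP X lab q U w ∧ G.Adj x w := by
    intro x hx
    have h8 := hx.2.2
    have hne : (univ.filter fun v => FrP X lab q U v ∧ G.Adj x v).Nonempty := by
      rw [← Finset.card_pos]; omega
    obtain ⟨w, hw⟩ := hne
    exact ⟨w, (Finset.mem_filter.mp hw).2⟩
  -- (C)
  have hCC : ∀ x x' y y', UsX G L X lab q U x → UsX G L X lab q U x' →
      G.Adj x x' → FrP X lab q U y →
      FrP X lab q U y' → G.Adj x y → G.Adj x' y' → pi (lab y) = pi (lab y') := by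
    intro x x' y y' hx hx' hxx hy hy' hxy hxy'
    by_cases hcm : ∀ t, ¬ (L.Adj x t ∧ L.Adj x' t)
    · exact hC0 x x' y y' hx hx' hxx hcm hy hy' hxy hxy'
    · push Not at hcm
      obtain ⟨mm, hm1, hm2⟩ := hcm
      have hnb : ∀ t, L.Adj mm t → t = x ∨ t = x' := fun t ht =>
        nb_two (hL.deg mm) hm1.symm hm2.symm hxx.ne ht
      have hmm : UsX G L X lab q U mm := by
        refine ⟨hx.2 mm hm1, ?_⟩
        intro t ht
        rcases hnb t ht with h | h
        · rw [h]; exact hx.1
        · rw [h]; exact hx'.1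
      obtain ⟨w, hw, hmw⟩ := hfree mm hmm.1
      have e1 : pi (lab y) = pi (lab w) := by
        refine hC0 x mm y w hx hmm (hL.le hm1) ?_ hy hw hxy hmw
        rintro t ⟨ht1, ht2⟩
        rcases hnb t ht2 with h | h
        · rw [h] at ht1; exact ht1.ne rfl
        · rw [h] at ht1
          exact no_tri hL.acy ht1 hm2 hm1
      have e2 : pi (lab w) = pi (lab y') := by
        refine hC0 mm x' w y' hmm hx' (hL.le hm2).symm ?_ hw hy' hmw hxy'
        rintro t ⟨ht1, ht2⟩
        rcases hnb t ht1 with h | h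
        · rw [h] at ht2
          exact no_tri hL.acy ht2 hm1 hm2
        · rw [h] at ht2; exact ht2.ne rfl
      rw [e1, e2]
  -- the classes
  obtain ⟨cl, hcl1, hcl2⟩ : ∃ cl : V → V, (∀ v ∉ X, cl v = pi (lab v)) ∧
      ∀ x, UsX G L X lab q U x → ∃ w, FrP X lab q U w ∧ G.Adj x w ∧
        cl x = pi (lab w) := by
    refine ⟨fun v => if h : v ∈ X ∧ ∃ w, FrP X lab q U w ∧ G.Adj v w then
      pi (lab h.2.choose) else pi (lab v), ?_, ?_⟩
    · intro v hv
      have : ¬ (v ∈ X ∧ ∃ w, FrP X lab q U w ∧ G.Adj v w) := fun h => hv h.1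
      simp only [dif_neg this]
    · intro x hx
      have h : x ∈ X ∧ ∃ w, FrP X lab q U w ∧ G.Adj x w := ⟨hx.1.1, hfree x hx.1⟩
      refine ⟨h.2.choose, h.2.choose_spec.1, h.2.choose_spec.2, ?_⟩
      simp only [dif_pos h]
  let OK : V → Prop := fun v => FrP X lab q U v ∨ UsX G L X lab q U v
  have hD : ∀ u v, OK u → OK v → G.Adj u v → cl u = cl v := by
    intro u v hu hv huv
    rcases hu with hu | hu
    · rcases hv with hv | hv
      · rw [hcl1 u hu.1, hcl1 v hv.1]
        exact hA u v hu hv huv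
      · obtain ⟨w, hw, hvw, e⟩ := hcl2 v hv
        rw [hcl1 u hu.1, e]
        exact hB v u w hv hu hw huv.symm hvw
    · rcases hv with hv | hv
      · obtain ⟨w, hw, huw, e⟩ := hcl2 u hu
        rw [hcl1 v hv.1, e]
        exact hB u w v hu hw hv huw huv
      · obtain ⟨w, hw, huw, e⟩ := hcl2 u hu
        obtain ⟨w', hw', hvw', e'⟩ := hcl2 v hv
        rw [e, e']
        exact hCC u v w w' hu hv huv hw hw' huw hvw'
  -- the bad set
  obtain ⟨SS, hSS⟩ : ∃ SS : Finset V, SS = univ.filter fun v => ¬ OK v := ⟨_, rfl⟩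
  have hSScard : SS.card ≤ N := by
    refine le_trans ?_ hbad
    refine le_trans (Finset.card_le_card ?_) (Finset.card_union_le _ _)
    intro v hv
    rw [hSS, Finset.mem_filter] at hv
    have hv2 : ¬ (FrP X lab q U v ∨ UsX G L X lab q U v) := hv.2
    rw [not_or] at hv2
    rw [Finset.mem_union, Finset.mem_filter, Finset.mem_filter]
    by_cases hx : v ∈ X
    · exact Or.inr ⟨Finset.mem_univ _, hx, hv2.2⟩
    · exact Or.inl ⟨Finset.mem_univ _, hx, hv2.1⟩
  -- the parts
  obtain ⟨I, hIdef⟩ : ∃ I : Finset V, I = (univ \ X).image fun v => pi (lab v) := ⟨_, rfl⟩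
  have hIcard : I.card = np X lab pi := by rw [hIdef, np]
  obtain ⟨d, hd⟩ : ∃ d, np X lab pi = d + 1 := ⟨np X lab pi - 1, by omega⟩
  have hd1 : 1 ≤ d := by omega
  obtain ⟨Iin, hIin⟩ : ∃ J : Finset V, J = I.filter fun i =>
    ¬ ∃ v, FrP X lab q U v ∧ pi (lab v) = i := ⟨_, rfl⟩
  obtain ⟨Iout, hIout⟩ : ∃ J : Finset V, J = I.filter fun i =>
    ∃ v, FrP X lab q U v ∧ pi (lab v) = i := ⟨_, rfl⟩
  have hsum : Iout.card + Iin.card = d + 1 := by
    rw [hIin, hIout, Finset.card_filter_add_card_filter_not, hIcard, hd]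
  -- the inner parts
  have hin : Iin.card * (q - 7) ≤ U.card := by
    have hch : ∀ i : V, ∃ v, i ∈ I → v ∉ X ∧ pi (lab v) = i := by
      intro i
      by_cases hi : i ∈ I
      · have hi' := hi
        rw [hIdef, Finset.mem_image] at hi'
        obtain ⟨v, hv, e⟩ := hi'
        exact ⟨v, fun _ => ⟨(Finset.mem_sdiff.mp hv).2, e⟩⟩
      · exact ⟨i, fun h => absurd h hi⟩
    choose g hg using hch
    have hg' : ∀ i ∈ Iin, g i ∉ X ∧ pi (lab (g i)) = i := by
      intro i hi
      rw [hIin] at hi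
      exact hg i (Finset.mem_filter.mp hi).1
    have hinj : Set.InjOn (fun i => lab (g i)) (Iin : Set V) := by
      intro i hi j hj hij
      have h1 := (hg' i hi).2
      have h2 := (hg' j hj).2
      have h3 : lab (g i) = lab (g j) := hij
      rw [h3] at h1
      exact h1.symm.trans h2
    have hcard : (Iin.image fun i => lab (g i)).card = Iin.card :=
      Finset.card_image_of_injOn hinj
    have := hI V G X lab q (Fintype.card V + 1) hp U (Iin.image fun i => lab (g i)) (by
      intro c' hc'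
      rw [Finset.mem_image] at hc'
      obtain ⟨i, hi, e⟩ := hc'
      exact ⟨g i, (hg' i hi).1, e⟩) (by
      intro v hv hlab hfr
      rw [Finset.mem_image] at hlab
      obtain ⟨i, hi, e⟩ := hlab
      have h2 := (hg' i hi).2
      rw [hIin, Finset.mem_filter] at hi
      refine hi.2 ⟨v, hfr, ?_⟩
      have e' : lab (g i) = lab v := e
      rw [← e']
      exact h2)
    rw [hcard] at this
    exact this
  refine ⟨Iout.card, Iin.card, by rw [hsum, hd], hin, ?_⟩
  by_cases hout2 : 2 ≤ Iout.card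
  · -- the outer parts
    have hmemout : ∀ i ∈ Iout, ∃ v, OK v ∧ cl v = i := by
      intro i hi
      rw [hIout, Finset.mem_filter] at hi
      obtain ⟨_, v, hv, e⟩ := hi
      exact ⟨v, Or.inl hv, by rw [hcl1 v hv.1, e]⟩
    have hbd : ∀ i ∈ Iout, c ≤ (SS.filter fun t => ∃ v, OK v ∧ cl v = i ∧ G.Adj t v).card := by
      intro i hi
      by_contra hlt
      push Not at hlt
      obtain ⟨Si, hSi⟩ : ∃ S : Finset V, S = SS.filter fun t => ∃ v, OK v ∧ cl v = i ∧ G.Adj t v :=
        ⟨_, rfl⟩
      rw [← hSi] at hlt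
      have hconn := hk.2 Si hlt
      obtain ⟨j, hj, hji⟩ : ∃ j ∈ Iout, j ≠ i := by
        by_contra hcon
        push Not at hcon
        have : Iout ⊆ {i} := fun j hj => Finset.mem_singleton.mpr (hcon j hj)
        have := Finset.card_le_card this
        rw [Finset.card_singleton] at this
        omega
      obtain ⟨v, hv, ev⟩ := hmemout i hi
      obtain ⟨w, hw, ew⟩ := hmemout j hj
      have hnS : ∀ u, OK u → u ∈ ((Si : Set V)ᶜ) := by
        intro u hu hmem
        have : u ∈ Si := hmem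
        rw [hSi, Finset.mem_filter, hSS, Finset.mem_filter] at this
        exact this.1.2 hu
      have hmemS : ∀ u, ¬ OK u → (∃ v, OK v ∧ cl v = i ∧ G.Adj u v) → u ∈ Si := by
        intro u hu hu2
        rw [hSi, Finset.mem_filter, hSS, Finset.mem_filter]
        exact ⟨⟨Finset.mem_univ _, hu⟩, hu2⟩
      have hclosed : ∀ (a b : ((Si : Set V)ᶜ : Set V)),
          (G.induce ((Si : Set V)ᶜ)).Adj a b → (OK a.1 ∧ cl a.1 = i) → (OK b.1 ∧ cl b.1 = i) := by
        intro a b hab ha
        have hab' : G.Adj a.1 b.1 := hab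
        by_cases hb : OK b.1
        · exact ⟨hb, by rw [← ha.2]; exact (hD a.1 b.1 ha.1 hb hab').symm⟩
        · exfalso
          have hb2 : b.1 ∉ Si := b.2
          exact hb2 (hmemS b.1 hb ⟨a.1, ha.1, ha.2, hab'.symm⟩)
      have hreach := hconn.preconnected ⟨v, hnS v hv⟩ ⟨w, hnS w hw⟩
      obtain ⟨p⟩ := hreach
      have hwalk : ∀ (a b : ((Si : Set V)ᶜ : Set V)) (q : (G.induce ((Si : Set V)ᶜ)).Walk a b),
          (OK a.1 ∧ cl a.1 = i) → (OK b.1 ∧ cl b.1 = i) := by
        intro a b q
        induction q with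
        | nil => exact id
        | cons h _ ih => exact fun ha => ih (hclosed _ _ h ha)
      have := hwalk _ _ p ⟨hv, ev⟩
      exact hji (ew.symm.trans this.2)
    have hdc : Iout.card * c ≤ s * SS.card := by
      have h1 : Iout.card * c ≤
          ∑ i ∈ Iout, (SS.filter fun t => ∃ v, OK v ∧ cl v = i ∧ G.Adj t v).card := by
        rw [← smul_eq_mul]
        exact Finset.card_nsmul_le_sum _ _ _ hbd
      have h2 : ∑ i ∈ Iout, (SS.filter fun t => ∃ v, OK v ∧ cl v = i ∧ G.Adj t v).card =
          ∑ t ∈ SS, (Iout.filter fun i => ∃ v, OK v ∧ cl v = i ∧ G.Adj t v).card := by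
        simp only [Finset.card_filter]
        exact Finset.sum_comm
      have h3 : ∑ t ∈ SS, (Iout.filter fun i => ∃ v, OK v ∧ cl v = i ∧ G.Adj t v).card ≤
          ∑ t ∈ SS, s := by
        refine Finset.sum_le_sum ?_
        intro t _
        by_contra hlt
        push Not at hlt
        obtain ⟨J, hJsub, hJcard⟩ := Finset.exists_subset_card_eq
          (show s + 1 ≤ (Iout.filter fun i => ∃ v, OK v ∧ cl v = i ∧ G.Adj t v).card by omega)
        have hch : ∀ i : V, ∃ v, i ∈ J → OK v ∧ cl v = i ∧ G.Adj t v := by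
          intro i
          by_cases hi : i ∈ J
          · obtain ⟨v, hv⟩ := (Finset.mem_filter.mp (hJsub hi)).2
            exact ⟨v, fun _ => hv⟩
          · exact ⟨i, fun h => absurd h hi⟩
        choose g hg using hch
        have hinj : Set.InjOn g (J : Set V) := by
          intro i hi j hj hij
          have h1 := (hg i hi).2.1
          have h2 := (hg j hj).2.1
          rw [hij] at h1
          exact h1.symm.trans h2
        refine hst ⟨t, J.image g, ?_, ?_, ?_⟩
        · rw [Finset.card_image_of_injOn hinj, hJcard]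
        · intro w hw
          rw [Finset.mem_image] at hw
          obtain ⟨i, hi, e⟩ := hw
          rw [← e]
          exact (hg i hi).2.2
        · intro a ha b hb hab hadj
          rw [Finset.mem_coe, Finset.mem_image] at ha hb
          obtain ⟨i, hi, ei⟩ := ha
          obtain ⟨j, hj, ej⟩ := hb
          rw [← ei, ← ej] at hadj
          have := hD _ _ (hg i hi).1 (hg j hj).1 hadj
          rw [(hg i hi).2.1, (hg j hj).2.1] at this
          apply hab
          rw [← ei, ← ej, this]
      rw [Finset.sum_const, smul_eq_mul] at h3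
      calc Iout.card * c ≤ _ := h1
        _ = _ := h2
        _ ≤ SS.card * s := h3
        _ = s * SS.card := Nat.mul_comm _ _
    exact Or.inr (hdc.trans (Nat.mul_le_mul_left _ hSScard))
  · exact Or.inl (by omega)

end Pool.Agent.H56.JWL
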