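import Pool.Agent.H56.JWL.CUTG
import Pool.Agent.H81.JWQ.CNT
import Pool.Agent.H45.JW.EXP
import Pool.Agent.H7.JW.HAMF

/-!
# MP_959f6e_co: linear connectivity for graphs with large cliques in the neighbourhoods
-/

set_option autoImplicit false

open Finset

namespace Pool.Agent.H56.JWL

open Pool.Agent.H56.JW
open Pool.Agent.H44.HC (StarFree KConn Link)

section
variable {V : Type} [Fintype V] [DecidableEq V]

/-- every set `H` of neighbours of a vertex contains a clique with at least `H.card / s` vertices -/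
def LocCl (s : ℕ) (G : SimpleGraph V) : Prop :=
  ∀ (v : V) (H : Finset V), (∀ w ∈ H, G.Adj v w) →
    ∃ K ⊆ H, (K : Set V).Pairwise G.Adj ∧ H.card ≤ s * K.card

open Classical in
/-- packings with separate bounds for the size of the blocks and for the leftover set -/
structure PackL (q σ m : ℕ) (G : SimpleGraph V) (X : Finset V) (lab : V → V) : Prop where
  blk : ∀ v ∉ X, Block q G (cls X lab v)
  size : ∀ v ∉ X, (cls X lab v).card ≤ σ
  left : ∀ v, (univ.filter fun x => x ∈ X ∧ G.Adj v x).card ≤ m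

/-- cliques are blocks -/
lemma block_clique {q : ℕ} {G : SimpleGraph V} {B : Finset V} (hB : (B : Set V).Pairwise G.Adj)
    (hc : B.card = q + 2) : Block q G B := by
  refine ⟨1, ?_, ?_, ?_⟩
  · intro T hT hi
    by_contra hcon
    push Not at hcon
    obtain ⟨x, hx, y, hy, hxy⟩ := Finset.one_lt_card.1 hcon
    exact hi (mem_coe.2 hx) (mem_coe.2 hy) hxy (hB (mem_coe.2 (hT hx)) (mem_coe.2 (hT hy)) hxy)
  · omega
  · intro S hS
    have hne : (B \ S).Nonempty := by
      rw [← card_pos]
      have := le_card_sdiff S B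
      omega
    obtain ⟨z, hz⟩ := hne
    have : Nonempty ((B \ S : Finset V) : Set V) := ⟨⟨z, mem_coe.2 hz⟩⟩
    refine ⟨?_⟩
    intro a b
    by_cases hab : a = b
    · rw [hab]
    · refine SimpleGraph.Adj.reachable ?_
      have ha := (mem_sdiff.1 (mem_coe.1 a.2)).1
      have hb := (mem_sdiff.1 (mem_coe.1 b.2)).1
      exact hB (mem_coe.2 ha) (mem_coe.2 hb) (fun h => hab (Subtype.ext h))

lemma LocCl.star {s : ℕ} {G : SimpleGraph V} (h : LocCl s G) : StarFree (s + 1) G := by
  rintro ⟨v, T, hT, hadj, hi⟩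
  obtain ⟨K, hK, hKc, hcard⟩ := h v T hadj
  have h1 : K.card ≤ 1 := by
    by_contra hcon
    push Not at hcon
    obtain ⟨x, hx, y, hy, hxy⟩ := Finset.one_lt_card.1 hcon
    exact hi (mem_coe.2 (hK hx)) (mem_coe.2 (hK hy)) hxy (hKc (mem_coe.2 hx) (mem_coe.2 hy) hxy)
  have h2 : s * K.card ≤ s * 1 := Nat.mul_le_mul_left _ h1
  omega

open Pool.Agent.H52.JWQ in
/-- maximal packings by cliques with `q + 2` vertices -/
theorem packL_exists (q s : ℕ) {G : SimpleGraph V} (hG : LocCl s G) :
    ∃ (X : Finset V) (lab : V → V), PackL q (q + 2) (s * (q + 1)) G X lab := by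
  classical
  obtain ⟨F, hF, hmax⟩ := Finset.exists_max_image
    (univ.filter fun F : Finset (Finset V) => Fam q (q + 2) G F) Finset.card
    ⟨∅, by rw [mem_filter]; exact ⟨mem_univ _, by simp [Fam]⟩⟩
  rw [mem_filter] at hF
  have hF' := hF.2
  have key : ∀ w, w ∉ univ \ F.biUnion id ↔ ∃ B ∈ F, w ∈ B := by
    intro w
    simp
  refine ⟨univ \ F.biUnion id, lb F, ⟨fun v hv => ?_, fun v hv => ?_, fun v => ?_⟩⟩
  · rw [cls_eq hF' hv]
    exact (hF'.1 _ (bl_spec ((key v).1 hv)).1).2.1
  · rw [cls_eq hF' hv]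
    exact (hF'.1 _ (bl_spec ((key v).1 hv)).1).2.2
  · by_contra hcon
    rw [not_le] at hcon
    obtain ⟨K, hK, hKc, hcard⟩ := hG v
      (univ.filter fun x => x ∈ univ \ F.biUnion id ∧ G.Adj v x)
      (fun w hw => (mem_filter.1 hw).2.2)
    have hK2 : q + 2 ≤ K.card := by
      by_contra hlt
      push Not at hlt
      have h1 : s * K.card ≤ s * (q + 1) := Nat.mul_le_mul_left _ (by omega)
      omega
    obtain ⟨B, hBK, hBc⟩ := exists_subset_card_eq hK2
    have hadj : ∀ x ∈ B, x ∈ univ \ F.biUnion id ∧ G.Adj v x := fun x hx =>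
      (mem_filter.1 (hK (hBK hx))).2
    have hBb : Block q G B := block_clique (hKc.mono (by exact_mod_cast hBK)) hBc
    have hBne : B.Nonempty := by
      rw [← card_pos]
      omega
    have hBX : ∀ x ∈ B, ∀ C ∈ F, x ∉ C := by
      intro x hx C hC hxC
      have h1 := (hadj x hx).1
      exact (key x).2 ⟨C, hC, hxC⟩ h1
    have hnot : B ∉ F := by
      intro h
      obtain ⟨x, hx⟩ := hBne
      exact hBX x hx B h hx
    have hFam : Fam q (q + 2) G (insert B F) := by
      constructor
      · intro C hC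
        rw [mem_insert] at hC
        rcases hC with rfl | hC
        · exact ⟨hBne, hBb, hBc.le⟩
        · exact hF'.1 C hC
      · intro C hC D hD hne
        rw [mem_insert] at hC hD
        rcases hC with rfl | hC <;> rcases hD with rfl | hD
        · exact absurd rfl hne
        · exact disjoint_left.2 fun x hx hx' => hBX x hx D hD hx'
        · exact disjoint_left.2 fun x hx hx' => hBX x hx' C hC hx
        · exact hF'.2 C hC D hD hne
    have h2 := hmax (insert B F) (by rw [mem_filter]; exact ⟨mem_univ _, hFam⟩)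
    rw [card_insert_of_notMem hnot] at h2
    omega

open Classical in
/-- not free packed vertices -/
theorem notfreeL (G : SimpleGraph V) (X : Finset V) (lab : V → V) (q σ m : ℕ)
    (hP : PackL q σ m G X lab) (U : Finset (V ⊕ (V × ℕ))) :
    ∃ k : ℕ, k * (q - 7) ≤ (U.filter fun e => e.isRight = true).card ∧
      (univ.filter fun v => v ∉ X ∧ ¬ FrP X lab q U v).card ≤
        (univ.filter fun v => v ∉ X ∧ Sum.inl v ∈ U).card + k * σ := by
  set C : Finset V := ((univ.filter fun v => v ∉ X).image lab).filter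
    fun c => q - 7 ≤ ((range q).filter fun s => Sum.inr (c, s) ∈ U).card with hC
  refine ⟨C.card, ?_, ?_⟩
  · have h1 : C.card * (q - 7) ≤ ∑ c ∈ C, ((range q).filter fun s => Sum.inr (c, s) ∈ U).card := by
      rw [← smul_eq_mul]
      exact Finset.card_nsmul_le_sum _ _ _ fun c hc => (mem_filter.1 hc).2
    refine h1.trans ?_
    have h2 : (C.biUnion fun c => ((range q).filter fun s => Sum.inr (c, s) ∈ U).image
        fun s => (Sum.inr (c, s) : V ⊕ (V × ℕ))) ⊆ U.filter fun e => e.isRight = true := by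
      intro e he
      obtain ⟨c, _, h3⟩ := mem_biUnion.1 he
      obtain ⟨s, h4, rfl⟩ := mem_image.1 h3
      exact mem_filter.2 ⟨(mem_filter.1 h4).2, rfl⟩
    refine le_trans (le_of_eq ?_) (card_le_card h2)
    rw [card_biUnion]
    · refine sum_congr rfl fun c _ => ?_
      rw [card_image_of_injective]
      intro s s' hs
      have := Sum.inr.inj hs
      exact (Prod.mk.inj this).2
    · intro c _ c' _ hcc
      refine disjoint_left.2 ?_
      intro e he he'
      obtain ⟨s, _, rfl⟩ := mem_image.1 he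
      obtain ⟨s', _, h5⟩ := mem_image.1 he'
      exact hcc (Prod.mk.inj (Sum.inr.inj h5)).1.symm
  · have h1 : (univ.filter fun v => v ∉ X ∧ ¬ FrP X lab q U v) ⊆
        (univ.filter fun v => v ∉ X ∧ Sum.inl v ∈ U) ∪
        C.biUnion fun c => univ.filter fun w => w ∉ X ∧ lab w = c := by
      intro v hv
      obtain ⟨-, hvX, hvF⟩ := mem_filter.1 hv
      by_cases hvU : Sum.inl v ∈ U
      · exact mem_union_left _ (mem_filter.2 ⟨mem_univ _, hvX, hvU⟩)
      · refine mem_union_right _ (mem_biUnion.2 ⟨lab v, ?_, mem_filter.2 ⟨mem_univ _, hvX, rfl⟩⟩)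
        refine mem_filter.2 ⟨mem_image_of_mem _ (mem_filter.2 ⟨mem_univ _, hvX⟩), ?_⟩
        have h2 : ¬ 8 ≤ ((range q).filter fun s => Sum.inr (lab v, s) ∉ U).card :=
          fun h => hvF ⟨hvX, hvU, h⟩
        have h3 := card_filter_add_card_filter_not (s := range q)
          (fun s => (Sum.inr (lab v, s) : V ⊕ (V × ℕ)) ∈ U)
        rw [card_range] at h3
        omega
    refine (card_le_card h1).trans ((card_union_le _ _).trans (Nat.add_le_add_left ?_ _))
    refine card_biUnion_le_card_mul _ _ _ fun c hc => ?_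
    obtain ⟨v, hv, rfl⟩ := mem_image.1 (mem_filter.1 hc).1
    exact hP.size v (mem_filter.1 hv).2

open Classical in
/-- leftover vertices with few free neighbours -/
theorem fewL (G : SimpleGraph V) (X : Finset V) (lab : V → V) (q σ m c d : ℕ)
    (hP : PackL q σ m G X lab) (hk : KConn c G) (U : Finset (V ⊕ (V × ℕ)))
    (hd : d + m + 7 ≤ c) :
    (univ.filter fun x => x ∈ X ∧ Sum.inl x ∉ U ∧
      (univ.filter fun v => FrP X lab q U v ∧ G.Adj x v).card < 8).card * d ≤
      (univ.filter fun v => v ∉ X ∧ ¬ FrP X lab q U v).card * m := by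
  refine Finset.card_mul_le_card_mul (fun x v => G.Adj x v) ?_ ?_
  · intro x hx
    obtain ⟨-, -, -, hx3⟩ := mem_filter.1 hx
    obtain ⟨N, hN1, hN2⟩ := Pool.Agent.H81.JWQ.deg_of_kconn hk x
    have h1 : N ⊆ ((univ.filter fun v => FrP X lab q U v ∧ G.Adj x v) ∪
        (univ.filter fun y => y ∈ X ∧ G.Adj x y)) ∪
        (univ.filter fun v => v ∉ X ∧ ¬ FrP X lab q U v).bipartiteAbove (fun x v => G.Adj x v) x := by
      intro v hv
      by_cases h2 : v ∈ X
      · exact mem_union_left _ (mem_union_right _ (mem_filter.2 ⟨mem_univ _, h2, hN1 v hv⟩))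
      · by_cases h3 : FrP X lab q U v
        · exact mem_union_left _ (mem_union_left _ (mem_filter.2 ⟨mem_univ _, h3, hN1 v hv⟩))
        · exact mem_union_right _ (mem_filter.2 ⟨mem_filter.2 ⟨mem_univ _, h2, h3⟩, hN1 v hv⟩)
    have h2 := card_le_card h1
    have h3 := card_union_le ((univ.filter fun v => FrP X lab q U v ∧ G.Adj x v) ∪
        (univ.filter fun y => y ∈ X ∧ G.Adj x y))
        ((univ.filter fun v => v ∉ X ∧ ¬ FrP X lab q U v).bipartiteAbove (fun x v => G.Adj x v) x)
    have h4 := card_union_le (univ.filter fun v => FrP X lab q U v ∧ G.Adj x v)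
        (univ.filter fun y => y ∈ X ∧ G.Adj x y)
    have h5 := hP.left x
    omega
  · intro v _
    have h1 : (univ.filter fun x => x ∈ X ∧ Sum.inl x ∉ U ∧
        (univ.filter fun v => FrP X lab q U v ∧ G.Adj x v).card < 8).bipartiteBelow
        (fun x v => G.Adj x v) v ⊆ univ.filter fun x => x ∈ X ∧ G.Adj v x := by
      intro x hx
      obtain ⟨h2, h3⟩ := mem_filter.1 hx
      exact mem_filter.2 ⟨mem_univ _, (mem_filter.1 h2).2.1, h3.symm⟩
    exact (card_le_card h1).trans (hP.left v)

open Classical in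
/-- few vertices are not free or not usable -/
theorem cntL (G L : SimpleGraph V) (X : Finset V) (lab : V → V) (s c : ℕ) (hs : 1 ≤ s)
    (hc : 800 * s ≤ c) (hk : KConn c G) (hP : PackL 270 272 (s * 271) G X lab)
    (hd : ∀ v, dg L v ≤ 2) (hL : ∀ u v, L.Adj u v → u ∈ X ∧ v ∈ X) (U : Finset (V ⊕ (V × ℕ))) :
    (univ.filter fun v => v ∉ X ∧ ¬ FrP X lab 270 U v).card +
      (univ.filter fun x => x ∈ X ∧ ¬ UsX G L X lab 270 U x).card ≤ 3 * U.card := by
  obtain ⟨k, hk1, hk2⟩ := notfreeL G X lab 270 272 (s * 271) hP U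
  have h3 := Pool.Agent.H81.JWQ.notus_card G L X lab 270 hd hL U
  have h4 := Pool.Agent.H81.JWQ.split_card X U
  have h5 := fewL G X lab 270 272 (s * 271) c (522 * s) hP hk U (by omega)
  set a := (univ.filter fun v => v ∉ X ∧ ¬ FrP X lab 270 U v).card with ha
  set b := (univ.filter fun x => x ∈ X ∧ ¬ UsX G L X lab 270 U x).card with hb
  set x0 := (univ.filter fun x => x ∈ X ∧ Sum.inl x ∉ U ∧
      (univ.filter fun v => FrP X lab 270 U v ∧ G.Adj x v).card < 8).card with hx0
  have h6 : x0 * 522 ≤ a * 271 := by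
    have h7 : (x0 * 522) * s ≤ (a * 271) * s := by nlinarith
    exact Nat.le_of_mul_le_mul_right h7 hs
  omega

/-- the blocked packed vertices are few -/
lemma blockedL {G : SimpleGraph V} {X : Finset V}
    {lab : V → V} {q σ m : ℕ} (hP : PackL q σ m G X lab) (U : Finset (V ⊕ (V × ℕ)))
    (UP : Finset V)
    (hUP : ∀ b ∈ UP, b ∉ X ∧ (Sum.inl b ∈ U ∨ ∀ s < q, Sum.inr (lab b, s) ∈ U)) :
    ∃ u1 u2, u1 + u2 = U.card ∧ q * UP.card ≤ q * u1 + σ * u2 := by
  classical
  refine ⟨(U.filter fun z => z.isLeft = true).card, (U.filter fun z => ¬ z.isLeft = true).card,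
    card_filter_add_card_filter_not _, ?_⟩
  have h1 : (UP.filter fun b => Sum.inl b ∈ U).card ≤ (U.filter fun z => z.isLeft = true).card := by
    refine card_le_card_of_injOn (fun b => Sum.inl b) ?_ ?_
    · intro b hb
      rw [mem_coe, mem_filter] at hb
      rw [mem_coe, mem_filter]
      exact ⟨hb.2, rfl⟩
    · intro b _ b' _ h
      exact Sum.inl_injective h
  set W := UP.filter fun b => ¬ Sum.inl b ∈ U with hW
  have h2 : (W.image lab).card * q ≤ (U.filter fun z => ¬ z.isLeft = true).card := by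
    have h3 : ((W.image lab) ×ˢ (range q)).card = (W.image lab).card * q := by
      rw [card_product, card_range]
    rw [← h3]
    refine card_le_card_of_injOn (fun z => Sum.inr z) ?_ ?_
    · intro z hz
      rw [mem_coe, mem_product, mem_image, mem_range] at hz
      obtain ⟨⟨b, hb, hb1⟩, hz2⟩ := hz
      rw [hW, mem_filter] at hb
      obtain ⟨-, h4⟩ := hUP b hb.1
      have h5 := (h4.resolve_left hb.2) z.2 hz2
      rw [mem_coe, mem_filter]
      refine ⟨?_, by simp⟩
      have h6 : (lab b, z.2) = z := by rw [hb1]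
      rw [h6] at h5
      exact h5
    · intro z _ z' _ h
      exact Sum.inr_injective h
  have h3 : W.card ≤ σ * (W.image lab).card := by
    refine card_le_mul_card_image W σ ?_
    intro a ha
    obtain ⟨b, hb, rfl⟩ := mem_image.1 ha
    have hb1 := (hUP b (mem_filter.1 hb).1).1
    refine (card_le_card ?_).trans (hP.size b hb1)
    intro x hx
    rw [mem_filter] at hx
    unfold cls
    rw [mem_filter]
    exact ⟨mem_univ _, (hUP x (mem_filter.1 hx.1).1).1, hx.2⟩
  have h4 : UP.card = (UP.filter fun b => Sum.inl b ∈ U).card + W.card :=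
    (card_filter_add_card_filter_not _).symm
  rw [h4, mul_add]
  refine Nat.add_le_add (Nat.mul_le_mul_left q h1) ?_
  calc q * W.card ≤ q * (σ * (W.image lab).card) := Nat.mul_le_mul_left q h3
    _ = σ * ((W.image lab).card * q) := by ring
    _ ≤ _ := Nat.mul_le_mul_left σ h2

/-- the property of the ends -/
theorem endqL (G L : SimpleGraph V) (X : Finset V) (lab : V → V) (q s c : ℕ) (hq0 : q = 270)
    (hs : 1 ≤ s) (hc : 800 * s ≤ c) (hS : StarFree (s + 1) G) (hK : KConn c G)
    (hP : PackL q 272 (s * 271) G X lab) (hF : LinF G X L) : EndQ G L X lab q := by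
  classical
  intro E' hE hne U hU
  by_contra hcon
  push Not at hcon
  set Ev := E'.image Prod.fst with hEv
  set UP : Finset V := univ.filter fun b => b ∉ X ∧
    (Sum.inl b ∈ U ∨ ∀ s' < q, Sum.inr (lab b, s') ∈ U) with hUPd
  obtain ⟨u1, u2, hu, hq⟩ := blockedL hP U UP (fun b hb => (mem_filter.1 hb).2)
  have hEcard : E'.card ≤ 2 * Ev.card := by
    refine card_le_mul_card_image E' 2 ?_
    intro a _
    have h1 : (E'.filter fun x => x.1 = a).card ≤ (univ : Finset (Fin 2)).card := by
      refine card_le_card_of_injOn (fun x => x.2) (fun x _ => mem_coe.2 (mem_univ _)) ?_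
      intro x hx y hy hxy
      rw [mem_coe, mem_filter] at hx hy
      exact Prod.ext (hx.2.trans hy.2.symm) hxy
    rwa [card_univ, Fintype.card_fin] at h1
  have hEv0 : 1 ≤ Ev.card := Finset.card_pos.2 (hne.image _)
  have hdeg : ∀ e ∈ Ev, 529 * s ≤ (UP.bipartiteAbove G.Adj e).card := by
    intro e he
    obtain ⟨x, hx, rfl⟩ := mem_image.1 he
    obtain ⟨N, hN, hNc⟩ := Pool.Agent.H81.JWQ.deg_of_kconn hK x.1
    have h1 : (N.filter fun w => w ∈ X).card ≤ s * 271 := by
      refine le_trans (card_le_card ?_) (hP.left x.1)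
      intro w hw
      rw [mem_filter] at hw
      exact mem_filter.2 ⟨mem_univ _, hw.2, hN w hw.1⟩
    have h2 : (N.filter fun w => ¬ w ∈ X).card ≤ (UP.bipartiteAbove G.Adj x.1).card := by
      refine card_le_card ?_
      intro w hw
      rw [mem_filter] at hw
      rw [mem_bipartiteAbove]
      refine ⟨mem_filter.2 ⟨mem_univ _, hw.2, ?_⟩, hN w hw.1⟩
      by_contra hno
      push Not at hno
      obtain ⟨h3, s', hs', h4⟩ := hno
      exact h4 (hcon x hx w s' hw.2 (hN w hw.1) hs' h3)
    have h3 : (N.filter fun w => w ∈ X).card + (N.filter fun w => ¬ w ∈ X).card = N.card :=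
      card_filter_add_card_filter_not _
    omega
  have hsee : ∀ b ∈ UP, (Ev.bipartiteBelow G.Adj b).card ≤ 2 * s := by
    intro b _
    have h1 := Pool.Agent.H56.JWQ.all_LFN V G L X (s + 1) (by omega) hS hF b
    rw [Nat.add_sub_cancel] at h1
    refine (card_le_card ?_).trans h1
    intro e he
    rw [mem_bipartiteBelow] at he
    obtain ⟨x, hx, rfl⟩ := mem_image.1 he.1
    obtain ⟨h2, h3⟩ := hE x hx
    refine mem_filter.2 ⟨mem_univ _, h2, ?_, he.2.symm⟩
    omega
  have hcount := card_mul_le_card_mul G.Adj hdeg hsee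
  -- arithmetic
  have h5 : (Ev.card * 529) * s ≤ (UP.card * 2) * s := by nlinarith
  have h6 := Nat.le_of_mul_le_mul_right h5 hs
  subst hq0
  omega

theorem cutL (G L : SimpleGraph V) (X : Finset V) (lab : V → V) (s c : ℕ) (hs : 1 ≤ s)
    (hc : 800 * s ≤ c) (hS : StarFree (s + 1) G) (hK : KConn c G)
    (hP : PackL 270 272 (s * 271) G X lab) (hF : LinF G X L) : CutQ G L X lab 270 := by
  classical
  intro pi hnp U hU
  by_contra hno
  have hbad := cntL G L X lab s c hs hc hK hP hF.deg hF.inX U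
  obtain ⟨a, b, hab, hb, ha⟩ := cut_gen (Pool.Agent.H7.JW.pf_S1 Pool.Agent.H7.JW.pf_SLT)
    (Pool.Agent.H44.JWQ.pf_S2 Pool.Agent.H7.JW.pf_SLT Pool.Agent.H7.JW.pf_CHZ)
    (Pool.Agent.H7.JW.pf_S3 Pool.Agent.H7.JW.pf_SLT Pool.Agent.H7.JW.pf_CHZ)
    Pool.Agent.H81.JWQ.pf_CNI G L X lab 270 s c (3 * U.card) hS hK hP.blk hF pi hnp U hbad hno
  rcases ha with ha | ha
  · omega
  · have h1 : a * (800 * s) ≤ s * (3 * U.card) := (Nat.mul_le_mul_left a hc).trans ha
    have h2 : (a * 800) * s ≤ (3 * U.card) * s := by nlinarith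
    have h3 := Nat.le_of_mul_le_mul_right h2 hs
    omega

/-- linear connectivity for graphs with large cliques in the neighbourhoods -/
theorem mainL (s c : ℕ) (hs : 1 ≤ s) (hc : 800 * s ≤ c) (G : SimpleGraph V) (hK : KConn c G)
    (hG : LocCl s G) : G.IsHamiltonian := by
  classical
  have hS := hG.star
  obtain ⟨X, lab, hP⟩ := packL_exists 270 s hG
  obtain ⟨L, hLF⟩ := Pool.Agent.H12.JWQ.pf_LFE V G X
  have hcut := cutL G L X lab s c hs hc hS hK hP hLF
  have hend := endqL G L X lab 270 s c rfl hs hc hS hK hP hLF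
  obtain ⟨F, hFS⟩ := Pool.Agent.H56.JWQ.all_FST V G L X lab 270 hLF
    (Pool.Agent.H56.JWQ.all_HX V G L X lab 270 hLF.deg hLF.inX hcut hend)
  refine Pool.Agent.H69.JWQ.pf_ASM Pool.Agent.H45.JW.pf_PAIR
    (Pool.Agent.H45.JW.pf_EXP Pool.Agent.H13.JWQ.pf_LEAF) Pool.Agent.H7.JW.pf_MEC
    Pool.Agent.H56.JWQ.all_HTP Pool.Agent.H7.JW.pf_HAMF V G X lab 270 F (by norm_num) ?_ hP.blk hFS
  by_contra hcon
  push Not at hcon
  have hne : Nonempty V := by
    have := hK.1
    exact Fintype.card_pos_iff.1 (by omega)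
  obtain ⟨v⟩ := hne
  obtain ⟨N, hN1, hN2⟩ := Pool.Agent.H81.JWQ.deg_of_kconn hK v
  have h1 := hP.left v
  have h2 : N.card ≤ (univ.filter fun x => x ∈ X ∧ G.Adj v x).card := by
    apply card_le_card
    intro w hw
    rw [mem_filter]
    exact ⟨mem_univ _, hcon w, hN1 w hw⟩
  omega

end

end Pool.Agent.H56.JWL
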